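import Pool.Agent.Lib.MP_af1a28_nt.AllBands

/-!
Sidon sets of cubes: for all large N, a Sidon set of cubes n ^ 3 with 1 <= n <= N has at most
(8/9) N elements. Proof: for every r prime to the primes at most 397, the multiples of r by
integers with all prime factors at most 397 contain many pairwise disjoint solutions of
a ^ 3 + d ^ 3 = b ^ 3 + c ^ 3, and a Sidon set misses an element of each; the tables of solutions
are checked by the kernel.
-/

namespace Pool.Agent.Results.MP_af1a28_nt.CubesUpperBound

open Pool.Agent.Lib.MP_af1a28_nt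

/-- For all sufficiently large N, every Sidon set of cubes of positive integers up to N has at
most (8/9) N elements. -/
theorem result :
    ∀ᶠ N : ℕ in Filter.atTop, ∀ S : Finset ℕ, S ⊆ (Finset.Icc 1 N).image (fun n => n ^ 3) →
      (∀ a ∈ S, ∀ b ∈ S, ∀ c ∈ S, ∀ d ∈ S, a + b = c + d →
        (a = c ∧ b = d) ∨ (a = d ∧ b = c)) →
      (S.card : ℝ) ≤ 8 / 9 * N := by
  have hc : (1 - (tbF : ℝ) * (1214059301369 : ℕ) / (((1000000000000 : ℕ) : ℝ) * (tbP : ℝ)))
      < 8 / 9 := by
    have hP : (0 : ℝ) < ((1000000000000 : ℕ) : ℝ) * (tbP : ℝ) := by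
      have : 0 < tbP := by decide +kernel
      positivity
    have hn : 1000000000000 * tbP < 9 * (tbF * 1214059301369) := by decide +kernel
    have hr : ((1000000000000 * tbP : ℕ) : ℝ) < ((9 * (tbF * 1214059301369) : ℕ) : ℝ) := by
      exact_mod_cast hn
    rw [sub_lt_comm, lt_div_iff₀ hP]
    push_cast at hr ⊢
    linarith
  filter_upwards [eventually_bound _ _ ((tbF : ℝ) * (18623 : ℕ)) hc] with N hN S hS hSidon
  exact (bands_bound tbP 1000000000000 1214059301369 18623 tbF bandList (by decide +kernel)
    (by norm_num) bandList_srt bandList_good bandList_low bandList_tot tbF_eq N S hS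
    hSidon).trans hN

end Pool.Agent.Results.MP_af1a28_nt.CubesUpperBound
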